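import Pool.Agent.Helper97.Fuchs.H5.CommuteSmall
import Pool.Agent.Helper91.Fuchs.Area

/-!
# Non-elementarity (module FU-N1)
-/

namespace Pool.Agent.Helper97.Fuchs.H5

open MeasureTheory Matrix UpperHalfPlane Filter Topology
open scoped MatrixGroups ENNReal BigOperators Pointwise

noncomputable section

/-! ### conjugation of groups -/

/-- conjugation -/
def cj (h : SL(2, ℝ)) : SL(2, ℝ) →* SL(2, ℝ) := (MulAut.conj h).toMonoidHom

lemma cj_apply (h g : SL(2, ℝ)) : cj h g = h * g * h⁻¹ := rfl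

lemma grp_conj {ι : Type} (A : ι → SL(2, ℝ)) (h : SL(2, ℝ)) :
    grp (fun i => h * A i * h⁻¹) = (grp A).map (cj h) := by
  unfold grp
  rw [MonoidHom.map_closure]
  congr 1
  rw [Set.image_union, ← Set.range_comp, Set.image_singleton]
  congr 1
  rw [cj_apply]
  simp

lemma disc_conj {ε : ℝ} {Γ : Subgroup SL(2, ℝ)} (hd : Disc ε Γ) (h : SL(2, ℝ)) :
    ∃ ε', Disc ε' (Γ.map (cj h)) := by
  obtain ⟨hε, hd⟩ := hd
  have hn := nrm_pos h
  refine ⟨ε / (2 * nrm h ^ 2), by positivity, ?_⟩
  rintro _ ⟨g, hg, rfl⟩ hsmall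
  suffices g = 1 by rw [this, map_one]
  apply hd g hg
  intro i j
  refine (abs_entry_le_d1 g i j).trans_lt ?_
  set g' := cj h g with hg'
  have e : g = h⁻¹ * g' * h := by rw [hg', cj_apply]; group
  have e2 : g.1 - 1 = (h⁻¹ : SL(2, ℝ)).1 * (g'.1 - 1) * h.1 := by
    have h1 : (h⁻¹ : SL(2, ℝ)).1 * 1 * h.1 = 1 := by
      rw [mul_one]
      exact congrArg Subtype.val (inv_mul_cancel h)
    rw [mul_sub, sub_mul, h1, e]
    rfl
  have e3 : d1 g ≤ nrm h * d1 g' * nrm h := by
    rw [d1_eq_fr, e2]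
    refine (fr_mul_le _ _).trans ?_
    rw [← nrm_eq_fr]
    refine mul_le_mul_of_nonneg_right ?_ (nrm_nonneg _)
    refine (fr_mul_le _ _).trans ?_
    rw [← nrm_eq_fr, nrm_inv, d1_eq_fr]
  have e4 : d1 g' < 2 * (ε / (2 * nrm h ^ 2)) := by
    set δ := ε / (2 * nrm h ^ 2) with hδ
    have hδp : 0 < δ := by positivity
    have k00 := hsmall 0 0
    have k01 := hsmall 0 1
    have k10 := hsmall 1 0
    have k11 := hsmall 1 1
    rw [one00] at k00
    rw [one01, sub_zero] at k01
    rw [one10, sub_zero] at k10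
    rw [one11] at k11
    have q00 := sq_lt_sq' (abs_lt.1 k00).1 (abs_lt.1 k00).2
    have q01 := sq_lt_sq' (abs_lt.1 k01).1 (abs_lt.1 k01).2
    have q10 := sq_lt_sq' (abs_lt.1 k10).1 (abs_lt.1 k10).2
    have q11 := sq_lt_sq' (abs_lt.1 k11).1 (abs_lt.1 k11).2
    unfold d1
    rw [Real.sqrt_lt' (by positivity)]
    nlinarith
  have hn2 : 0 < nrm h ^ 2 := by positivity
  calc d1 g ≤ nrm h * d1 g' * nrm h := e3
    _ = nrm h ^ 2 * d1 g' := by ring
    _ < nrm h ^ 2 * (2 * (ε / (2 * nrm h ^ 2))) := by gcongr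
    _ = ε := by field_simp

/-- a unipotent element is conjugate to `U 1` up to inversion -/
lemma exists_conj_U (p : SL(2, ℝ)) (hp : p ≠ 1) (ht : p 0 0 + p 1 1 = 2) :
    ∃ k : SL(2, ℝ), p * k = k * U 1 ∨ p⁻¹ * k = k * U 1 := by
  set D := p 0 0 - 1 with hD
  have p00 : p 0 0 = 1 + D := by rw [hD]; ring
  have p11 : p 1 1 = 1 - D := by rw [hD]; linarith
  have hdet := det_eq p
  rw [p00, p11] at hdet
  have hq : D ^ 2 + p 0 1 * p 1 0 = 0 := by linarith
  obtain ⟨i00, i01, i10, i11⟩ := inv_entries p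
  have u00 : (U 1) 0 0 = 1 := rfl
  have u01 : (U 1) 0 1 = 1 := rfl
  have u10 : (U 1) 1 0 = 0 := rfl
  have u11 : (U 1) 1 1 = 1 := rfl
  rcases lt_trichotomy (p 0 1) 0 with hb | hb | hb
  · -- b < 0: use the inverse
    set y := 1 / √(-p 0 1) with hy
    have hs : 0 < √(-p 0 1) := Real.sqrt_pos.2 (by linarith)
    have hys : y ^ 2 * (-p 0 1) = 1 := by
      rw [hy, div_pow, one_pow, Real.sq_sqrt (by linarith)]
      exact one_div_mul_cancel (by linarith)
    let k : SL(2, ℝ) := ⟨!![-p 0 1 * y, 0; D * y, y], by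
      rw [Matrix.det_fin_two]; simp; linarith⟩
    have k00 : k 0 0 = -p 0 1 * y := rfl
    have k01 : k 0 1 = 0 := rfl
    have k10 : k 1 0 = D * y := rfl
    have k11 : k 1 1 = y := rfl
    refine ⟨k, Or.inr ?_⟩
    rw [sl_mul_eq_iff, i00, i01, i10, i11, k00, k01, k10, k11, u00, u01, u10, u11, p00, p11]
    refine ⟨by ring, by ring, ?_, by ring⟩
    linear_combination y * hq
  · have hD0 : D = 0 := by
      rw [hb, zero_mul, add_zero] at hq
      exact pow_eq_zero_iff (two_ne_zero) |>.1 hq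
    rcases lt_trichotomy (p 1 0) 0 with hc | hc | hc
    · set x := 1 / √(-p 1 0) with hx
      have hs : 0 < √(-p 1 0) := Real.sqrt_pos.2 (by linarith)
      have hxs : x ^ 2 * (-p 1 0) = 1 := by
        rw [hx, div_pow, one_pow, Real.sq_sqrt (by linarith)]
        exact one_div_mul_cancel (by linarith)
      let k : SL(2, ℝ) := ⟨!![0, x; p 1 0 * x, 0], by
        rw [Matrix.det_fin_two]; simp; linarith⟩
      have k00 : k 0 0 = 0 := rfl
      have k01 : k 0 1 = x := rfl
      have k10 : k 1 0 = p 1 0 * x := rfl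
      have k11 : k 1 1 = 0 := rfl
      refine ⟨k, Or.inl ?_⟩
      rw [sl_mul_eq_iff, k00, k01, k10, k11, u00, u01, u10, u11, p00, p11, hb, hD0]
      refine ⟨by ring, by ring, by ring, by ring⟩
    · exfalso
      apply hp
      apply sl_ext
      · rw [p00, hD0, one00]; ring
      · rw [hb, one01]
      · rw [hc, one10]
      · rw [p11, hD0, one11]; ring
    · set x := 1 / √(p 1 0) with hx
      have hs : 0 < √(p 1 0) := Real.sqrt_pos.2 (by linarith)
      have hxs : x ^ 2 * (p 1 0) = 1 := by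
        rw [hx, div_pow, one_pow, Real.sq_sqrt (by linarith)]
        field_simp
      let k : SL(2, ℝ) := ⟨!![0, x; -p 1 0 * x, 0], by
        rw [Matrix.det_fin_two]; simp; linarith⟩
      have k00 : k 0 0 = 0 := rfl
      have k01 : k 0 1 = x := rfl
      have k10 : k 1 0 = -p 1 0 * x := rfl
      have k11 : k 1 1 = 0 := rfl
      refine ⟨k, Or.inr ?_⟩
      rw [sl_mul_eq_iff, i00, i01, i10, i11, k00, k01, k10, k11, u00, u01, u10, u11, p00, p11, hb,
        hD0]
      refine ⟨by ring, by ring, by ring, by ring⟩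
  · set y := 1 / √(p 0 1) with hy
    have hs : 0 < √(p 0 1) := Real.sqrt_pos.2 (by linarith)
    have hys : y ^ 2 * (p 0 1) = 1 := by
      rw [hy, div_pow, one_pow, Real.sq_sqrt (by linarith)]
      field_simp
    let k : SL(2, ℝ) := ⟨!![p 0 1 * y, 0; -D * y, y], by
      rw [Matrix.det_fin_two]; simp; linarith⟩
    have k00 : k 0 0 = p 0 1 * y := rfl
    have k01 : k 0 1 = 0 := rfl
    have k10 : k 1 0 = -D * y := rfl
    have k11 : k 1 1 = y := rfl
    refine ⟨k, Or.inl ?_⟩
    rw [sl_mul_eq_iff, k00, k01, k10, k11, u00, u01, u10, u11, p00, p11]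
    refine ⟨by ring, by ring, ?_, by ring⟩
    linear_combination y * hq

/-! ### the strip has infinite area -/

lemma volume_univ_pos : 0 < (volume : Measure ℍ) Set.univ := by
  rw [volume_eq_lintegral, Set.image_univ]
  have hm : Measurable fun z : ℂ => ((((1 / ‖z.im‖₊) ^ 2 : NNReal)) : ℝ≥0∞) := by
    fun_prop
  rw [setLIntegral_pos_iff hm]
  have : Function.support (fun z : ℂ => ((((1 / ‖z.im‖₊) ^ 2 : NNReal)) : ℝ≥0∞)) ∩
      Set.range UpperHalfPlane.coe = {z : ℂ | 0 < z.im} := by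
    ext z
    constructor
    · rintro ⟨_, ⟨w, rfl⟩⟩
      exact w.im_pos
    · intro hz
      have hz' : 0 < z.im := hz
      refine ⟨?_, ⟨⟨z, hz'⟩, rfl⟩⟩
      simp [hz'.ne']
  rw [this]
  apply IsOpen.measure_pos
  · exact isOpen_lt continuous_const Complex.continuous_im
  · exact ⟨Complex.I, by simp⟩

/-- the vertical strip -/
def strip (a b : ℝ) : Set ℍ := {z | a ≤ z.re ∧ z.re < b}

lemma measurable_re : Measurable (fun z : ℍ => z.re) := UpperHalfPlane.continuous_re.measurable

lemma measurableSet_strip (a b : ℝ) : MeasurableSet (strip a b) :=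
  (measurableSet_le measurable_const measurable_re).inter
    (measurableSet_lt measurable_re measurable_const)

lemma re_U_smul (x : ℝ) (z : ℍ) : (U x • z).re = z.re + x := by
  have h : ((U x • z : ℍ) : ℂ) = z + x := by
    rw [coe_specialLinearGroup_apply]
    simp [U]
  have := congrArg Complex.re h
  simpa using this

/-- diagonal matrices -/
def Dg (t : ℝ) (ht : t ≠ 0) : SL(2, ℝ) := ⟨!![t, 0; 0, t⁻¹], by
  rw [Matrix.det_fin_two]; simp [ht]⟩

lemma re_Dg_smul (t : ℝ) (ht : t ≠ 0) (z : ℍ) : (Dg t ht • z).re = t ^ 2 * z.re := by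
  have h : ((Dg t ht • z : ℍ) : ℂ) = ((t ^ 2 : ℝ) : ℂ) * z := by
    rw [coe_specialLinearGroup_apply]
    simp [Dg]
    ring
  have := congrArg Complex.re h
  rw [Complex.re_ofReal_mul] at this
  exact this

lemma volume_smul_sl (g : SL(2, ℝ)) (s : Set ℍ) : volume (g • s) = volume s := by
  have : g • s = (g : GL (Fin 2) ℝ) • s := by
    ext z
    constructor
    · rintro ⟨w, hw, rfl⟩
      exact ⟨w, hw, rfl⟩
    · rintro ⟨w, hw, rfl⟩
      exact ⟨w, hw, rfl⟩
  rw [this, measure_smul]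

lemma strip_shift (a b x : ℝ) : U x • strip a b = strip (a + x) (b + x) := by
  ext z
  rw [Set.mem_smul_set_iff_inv_smul_mem]
  have h : ((U x)⁻¹ • z).re = z.re - x := by
    have := re_U_smul x ((U x)⁻¹ • z)
    rw [smul_inv_smul] at this
    linarith
  simp only [strip, Set.mem_ofPred_eq, h]
  constructor
  · rintro ⟨h1, h2⟩; exact ⟨by linarith, by linarith⟩
  · rintro ⟨h1, h2⟩; exact ⟨by linarith, by linarith⟩

lemma strip_scale (t : ℝ) (ht : t ≠ 0) (a b : ℝ) :
    Dg t ht • strip a b = strip (t ^ 2 * a) (t ^ 2 * b) := by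
  ext z
  rw [Set.mem_smul_set_iff_inv_smul_mem]
  have ht2 : 0 < t ^ 2 := by positivity
  have h : t ^ 2 * ((Dg t ht)⁻¹ • z).re = z.re := by
    have := re_Dg_smul t ht ((Dg t ht)⁻¹ • z)
    rw [smul_inv_smul] at this
    exact this.symm
  simp only [strip, Set.mem_ofPred_eq]
  rw [← h]
  constructor
  · rintro ⟨h1, h2⟩
    exact ⟨by gcongr, by gcongr⟩
  · rintro ⟨h1, h2⟩
    exact ⟨le_of_mul_le_mul_left h1 ht2, lt_of_mul_lt_mul_left h2 ht2.le⟩

lemma volume_strip : volume (strip 0 1) = ∞ := by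
  have h2 : volume (strip 0 2) = volume (strip 0 1) := by
    have ht : √2 ≠ 0 := by positivity
    have := strip_scale (√2) ht 0 1
    rw [Real.sq_sqrt (by norm_num), mul_zero, mul_one] at this
    rw [← this, volume_smul_sl]
  have h3 : volume (strip 0 2) = volume (strip 0 1) + volume (strip 0 1) := by
    have hs : strip 1 2 = U 1 • strip 0 1 := by rw [strip_shift]; norm_num
    have hu : strip 0 2 = strip 0 1 ∪ strip 1 2 := by
      ext z
      simp only [strip, Set.mem_ofPred_eq, Set.mem_union]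
      constructor
      · rintro ⟨h1, h2⟩
        rcases lt_or_ge z.re 1 with h | h
        · exact Or.inl ⟨h1, h⟩
        · exact Or.inr ⟨h, h2⟩
      · rintro (⟨h1, h2⟩ | ⟨h1, h2⟩)
        · exact ⟨h1, by linarith⟩
        · exact ⟨by linarith, h2⟩
    rw [hu, measure_union ?_ (measurableSet_strip 1 2)]
    · congr 1
      rw [hs, volume_smul_sl]
    · rw [Set.disjoint_left]
      rintro z ⟨_, h1⟩ ⟨h2, _⟩
      linarith
  by_contra hne
  have h0 : volume (strip 0 1) = 0 := by
    rw [h2] at h3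
    have h4 : volume (strip 0 1) + 0 = volume (strip 0 1) + volume (strip 0 1) := by
      rw [add_zero]; exact h3
    exact ((ENNReal.add_right_inj hne).1 h4).symm
  -- then the whole plane has measure zero
  have hz : ∀ k : ℤ, volume (strip k (k + 1)) = 0 := by
    intro k
    have := strip_shift 0 1 k
    rw [zero_add, add_comm (1 : ℝ)] at this
    rw [← this, volume_smul_sl, h0]
  have hun : (Set.univ : Set ℍ) = ⋃ k : ℤ, strip k (k + 1) := by
    symm
    rw [Set.eq_univ_iff_forall]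
    intro z
    rw [Set.mem_iUnion]
    exact ⟨⌊z.re⌋, Int.floor_le _, Int.lt_floor_add_one _⟩
  have := volume_univ_pos
  rw [hun, measure_iUnion_null hz] at this
  exact lt_irrefl _ this

/-! ### some element does not fix infinity -/

lemma re_smul_upper (g : SL(2, ℝ)) (hc : g 1 0 = 0) (ha : g 0 0 * g 0 0 = 1) (z : ℍ) :
    (g • z).re = z.re + g 0 1 * g 0 0 := by
  have hd := det_eq g
  rw [hc, mul_zero, sub_zero] at hd
  have ha0 : g 0 0 ≠ 0 := by
    intro h
    rw [h] at ha
    norm_num at ha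
  have h11 : g 1 1 = g 0 0 := by
    apply mul_left_cancel₀ ha0
    rw [hd, ha]
  have h : ((g • z : ℍ) : ℂ) = z + ((g 0 1 * g 0 0 : ℝ) : ℂ) := by
    rw [coe_specialLinearGroup_apply]
    simp only [Algebra.algebraMap_self, RingHom.id_apply]
    rw [hc, h11]
    have hac : ((g 0 0 : ℝ) : ℂ) ≠ 0 := by exact_mod_cast ha0
    have hac2 : ((g 0 0 : ℝ) : ℂ) * ((g 0 0 : ℝ) : ℂ) = 1 := by exact_mod_cast ha
    rw [Complex.ofReal_zero, zero_mul, zero_add, div_eq_iff hac]
    push_cast
    linear_combination (-(g 0 1 : ℂ)) * hac2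
  have := congrArg Complex.re h
  rw [Complex.add_re, Complex.ofReal_re] at this
  exact this

/-- an upper triangular element of a discrete group containing `U 1` has diagonal `±1` -/
lemma abs_diag_of_disc {Γ : Subgroup SL(2, ℝ)} {ε : ℝ} (hd : Disc ε Γ) (hU : U 1 ∈ Γ)
    {g : SL(2, ℝ)} (hg : g ∈ Γ) (hc : g 1 0 = 0) : |g 0 0| = 1 := by
  obtain ⟨hε, hd⟩ := hd
  have key : ∀ g ∈ Γ, g 1 0 = 0 → ¬ |g 0 0| < 1 := by
    intro g hg hc hlt
    have hdet := det_eq g
    rw [hc, mul_zero, sub_zero] at hdet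
    have ha0 : g 0 0 ≠ 0 := by
      intro h
      rw [h] at hdet
      norm_num at hdet
    have hmem : ∀ k : ℕ, U ((g 0 0 ^ 2) ^ k) ∈ Γ := by
      intro k
      induction k with
      | zero => simpa using hU
      | succ k ih =>
        have e : g * U ((g 0 0 ^ 2) ^ k) = U ((g 0 0 ^ 2) ^ (k + 1)) * g := by
          rw [sl_mul_eq_iff]
          have u00 : ∀ x, (U x) 0 0 = 1 := fun _ => rfl
          have u01 : ∀ x, (U x) 0 1 = x := fun _ => rfl
          have u10 : ∀ x, (U x) 1 0 = 0 := fun _ => rfl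
          have u11 : ∀ x, (U x) 1 1 = 1 := fun _ => rfl
          rw [u00, u01, u10, u11, u00, u01, u10, u11, hc]
          refine ⟨by ring, ?_, by ring, by ring⟩
          linear_combination (-(g 0 0 ^ 2) ^ k * g 0 0) * hdet
        have e2 : U ((g 0 0 ^ 2) ^ (k + 1)) = g * U ((g 0 0 ^ 2) ^ k) * g⁻¹ := by
          rw [e]; group
        rw [e2]
        exact Γ.mul_mem (Γ.mul_mem hg ih) (Γ.inv_mem hg)
    have hlt2 : g 0 0 ^ 2 < 1 := by
      rw [sq_lt_one_iff_abs_lt_one]; exact hlt
    obtain ⟨k, hk⟩ := exists_pow_lt_of_lt_one hε hlt2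
    have hpos : 0 < (g 0 0 ^ 2) ^ k := by positivity
    have h1 := hd _ (hmem k) (by
      intro i j
      fin_cases i <;> fin_cases j
      · show |(1 : ℝ) - 1| < ε
        simpa using hε
      · show |(g 0 0 ^ 2) ^ k - 0| < ε
        rw [sub_zero, abs_of_pos hpos]; exact hk
      · show |(0 : ℝ) - 0| < ε
        simpa using hε
      · show |(1 : ℝ) - 1| < ε
        simpa using hε)
    have h2 := congrArg (fun g : SL(2, ℝ) => g 0 1) h1
    have h3 : (g 0 0 ^ 2) ^ k = 0 := h2
    exact hpos.ne' h3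
  have h1 := key g hg hc
  have h2 := key g⁻¹ (Γ.inv_mem hg) (by rw [(inv_entries g).2.2.1, hc, neg_zero])
  rw [(inv_entries g).1] at h2
  have hdet := det_eq g
  rw [hc, mul_zero, sub_zero] at hdet
  push Not at h1 h2
  have h3 : |g 0 0| * |g 1 1| = 1 := by rw [← abs_mul, hdet, abs_one]
  nlinarith

lemma exists_c_ne {Γ : Subgroup SL(2, ℝ)} {ε : ℝ} (hd : Disc ε Γ) (hU : U 1 ∈ Γ)
    (hvol : ∀ m : ℕ, (∀ z : ℍ, {g : SL(2, ℝ) | g ∈ Γ ∧ g • z ∈ strip 0 1}.Finite ∧
      {g : SL(2, ℝ) | g ∈ Γ ∧ g • z ∈ strip 0 1}.ncard ≤ m) → volume (strip 0 1) < ∞) :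
    ∃ g ∈ Γ, g 1 0 ≠ 0 := by
  by_contra hno
  push Not at hno
  have hprop : ∀ g ∈ Γ, g 1 0 = 0 ∧ g 0 0 * g 0 0 = 1 ∧ g 1 1 = g 0 0 := by
    intro g hg
    have h10 := hno g hg
    have habs : |g 0 0| = 1 := abs_diag_of_disc hd hU hg h10
    have ha : g 0 0 * g 0 0 = 1 := by
      rw [← abs_mul_abs_self, habs]; norm_num
    refine ⟨h10, ha, ?_⟩
    have hdet := det_eq g
    rw [h10, mul_zero, sub_zero] at hdet
    have ha0 : g 0 0 ≠ 0 := by
      intro h
      rw [h] at ha
      norm_num at ha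
    apply mul_left_cancel₀ ha0
    rw [hdet, ha]
  obtain ⟨hε, hd⟩ := hd
  classical
  let T : Set (Bool × ℤ) := Set.univ ×ˢ Set.Icc 0 ⌊1 / ε⌋
  have hTfin : T.Finite := Set.finite_univ.prod (Set.finite_Icc _ _)
  have key : ∀ z : ℍ, {g : SL(2, ℝ) | g ∈ Γ ∧ g • z ∈ strip 0 1}.Finite ∧
      {g : SL(2, ℝ) | g ∈ Γ ∧ g • z ∈ strip 0 1}.ncard ≤ T.ncard := by
    intro z
    let φ : SL(2, ℝ) → Bool × ℤ := fun g => (decide (0 < g 0 0), ⌊(z.re + g 0 1 * g 0 0) / ε⌋)
    have hmaps : Set.MapsTo φ {g : SL(2, ℝ) | g ∈ Γ ∧ g • z ∈ strip 0 1} T := by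
      rintro g ⟨hg, h1, h2⟩
      obtain ⟨h10, ha, h11⟩ := hprop g hg
      rw [re_smul_upper g h10 ha] at h1 h2
      refine ⟨Set.mem_univ _, ?_, ?_⟩
      · exact Int.floor_nonneg.2 (by positivity)
      · apply Int.floor_le_floor
        gcongr
    have hinj : Set.InjOn φ {g : SL(2, ℝ) | g ∈ Γ ∧ g • z ∈ strip 0 1} := by
      rintro g ⟨hg, -⟩ g' ⟨hg', -⟩ he
      obtain ⟨h10, ha, h11⟩ := hprop g hg
      obtain ⟨h10', ha', h11'⟩ := hprop g' hg'
      have he1 : (0 < g 0 0) ↔ (0 < g' 0 0) := by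
        have := congrArg Prod.fst he
        simpa [φ] using this
      have he2 : ⌊(z.re + g 0 1 * g 0 0) / ε⌋ = ⌊(z.re + g' 0 1 * g' 0 0) / ε⌋ :=
        congrArg Prod.snd he
      have hs : g' 0 0 = g 0 0 := by
        have k1 : (g 0 0 - 1) * (g 0 0 + 1) = 0 := by linear_combination ha
        have k2 : (g' 0 0 - 1) * (g' 0 0 + 1) = 0 := by linear_combination ha'
        rcases mul_eq_zero.1 k1 with k | k <;> rcases mul_eq_zero.1 k2 with k' | k'
        · linarith
        · exfalso
          have : 0 < g' 0 0 := he1.1 (by linarith)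
          linarith
        · exfalso
          have : 0 < g 0 0 := he1.2 (by linarith)
          linarith
        · linarith
      have hlt := Int.abs_sub_lt_one_of_floor_eq_floor he2
      rw [← sub_div, abs_div, abs_of_pos hε, div_lt_one hε, hs] at hlt
      have hlt2 : |g' 0 1 - g 0 1| < ε := by
        have e : z.re + g 0 1 * g 0 0 - (z.re + g' 0 1 * g 0 0) = -((g' 0 1 - g 0 1) * g 0 0) := by
          ring
        rw [e, abs_neg, abs_mul] at hlt
        have habs : |g 0 0| = 1 := by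
          have : |g 0 0| * |g 0 0| = 1 := by rw [abs_mul_abs_self]; exact ha
          nlinarith [abs_nonneg (g 0 0)]
        rwa [habs, mul_one] at hlt
      have hone : g⁻¹ * g' = 1 := by
        apply hd _ (Γ.mul_mem (Γ.inv_mem hg) hg')
        obtain ⟨i00, i01, i10, i11⟩ := inv_entries g
        intro i j
        fin_cases i <;> fin_cases j
        · show |(g⁻¹ * g') 0 0 - 1| < ε
          rw [mul_apply', i00, i01, h10', h11, hs, ha]
          simpa using hε
        · show |(g⁻¹ * g') 0 1 - 0| < ε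
          rw [mul_apply', i00, i01, h11, h11', hs]
          have : g 0 0 * g' 0 1 + -g 0 1 * g 0 0 - 0 = (g' 0 1 - g 0 1) * g 0 0 := by ring
          rw [this, abs_mul]
          have habs : |g 0 0| = 1 := by
            have : |g 0 0| * |g 0 0| = 1 := by rw [abs_mul_abs_self]; exact ha
            nlinarith [abs_nonneg (g 0 0)]
          rwa [habs, mul_one]
        · show |(g⁻¹ * g') 1 0 - 0| < ε
          rw [mul_apply', i10, i11, h10, h10']
          simpa using hε
        · show |(g⁻¹ * g') 1 1 - 1| < ε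
          rw [mul_apply', i10, i11, h10, h11', hs]
          have : -0 * g' 0 1 + g 0 0 * g 0 0 - 1 = 0 := by rw [ha]; ring
          rw [this]
          simpa using hε
      calc g = g * (g⁻¹ * g') := by rw [hone, mul_one]
        _ = g' := by group
    exact ⟨Set.Finite.of_injOn hmaps hinj hTfin, Set.ncard_le_ncard_of_injOn φ hmaps hinj hTfin⟩
  have := hvol _ key
  rw [volume_strip] at this
  exact lt_irrefl _ this

/-! ### invariant measures -/

/-- stabiliser of a measure -/
def stab (η : Measure S1) : Subgroup SL(2, ℝ) where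
  carrier := {g | η.map (circ g) = η}
  one_mem' := by
    show η.map (circ 1) = η
    have : circ 1 = id := by funext z; simp
    rw [this, Measure.map_id]
  mul_mem' := by
    intro g h hg hh
    show η.map (circ (g * h)) = η
    have : circ (g * h) = circ g ∘ circ h := by funext z; exact circ_mul g h z
    rw [this, ← Measure.map_map (measurable_circ g) (measurable_circ h)]
    rw [show η.map (circ h) = η from hh]
    exact hg
  inv_mem' := by
    intro g hg
    show η.map (circ g⁻¹) = η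
    have hg' : η.map (circ g) = η := hg
    have h1 : (η.map (circ g)).map (circ g⁻¹) = η := by
      rw [Measure.map_map (measurable_circ _) (measurable_circ _)]
      have : circ g⁻¹ ∘ circ g = id := by
        funext z
        rw [Function.comp_apply, ← circ_mul, inv_mul_cancel]
        simp
      rw [this, Measure.map_id]
    rwa [hg'] at h1

lemma mem_stab {η : Measure S1} {g : SL(2, ℝ)} : g ∈ stab η ↔ η.map (circ g) = η := Iff.rfl

lemma stab_map {η : Measure S1} {g : SL(2, ℝ)} (hg : g ∈ stab η) (h : SL(2, ℝ)) :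
    h * g * h⁻¹ ∈ stab (η.map (circ h)) := by
  rw [mem_stab, Measure.map_map (measurable_circ _) (measurable_circ _)]
  have : circ (h * g * h⁻¹) ∘ circ h = circ h ∘ circ g := by
    funext z
    rw [Function.comp_apply, ← circ_mul, inv_mul_cancel_right, circ_mul]
    rfl
  rw [this, ← Measure.map_map (measurable_circ _) (measurable_circ _)]
  rw [mem_stab.1 hg]

lemma grp_mem_or {ι : Type} (A : ι → SL(2, ℝ)) {g : SL(2, ℝ)} (hg : g ∈ grp A) :
    g ∈ Subgroup.closure (Set.range A) ∨ -g ∈ Subgroup.closure (Set.range A) := by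
  unfold grp at hg
  induction hg using Subgroup.closure_induction with
  | mem x hx =>
    rcases hx with hx | hx
    · exact Or.inl (Subgroup.subset_closure hx)
    · rw [Set.mem_singleton_iff] at hx
      right
      rw [hx, neg_neg]
      exact Subgroup.one_mem _
  | one => exact Or.inl (Subgroup.one_mem _)
  | mul x y _ _ hx hy =>
    rcases hx with hx | hx <;> rcases hy with hy | hy
    · exact Or.inl (Subgroup.mul_mem _ hx hy)
    · right
      have : -(x * y) = x * -y := by simp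
      rw [this]
      exact Subgroup.mul_mem _ hx hy
    · right
      have : -(x * y) = -x * y := by simp
      rw [this]
      exact Subgroup.mul_mem _ hx hy
    · left
      have : x * y = -x * -y := by simp
      rw [this]
      exact Subgroup.mul_mem _ hx hy
  | inv x _ hx =>
    rcases hx with hx | hx
    · exact Or.inl (Subgroup.inv_mem _ hx)
    · right
      have : -x⁻¹ = (-x)⁻¹ := by simp
      rw [this]
      exact Subgroup.inv_mem _ hx

lemma no_inv_core (η : Measure S1) [IsProbabilityMeasure η] (hU : U 1 * U 1 ∈ stab η)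
    {g : SL(2, ℝ)} (hg : g ∈ stab η) (hc : g 1 0 ≠ 0) : False := by
  set T : SL(2, ℝ) := U 1 * U 1 with hT
  have t00 : T 0 0 = 1 := by
    rw [hT, mul_apply']
    show (1 : ℝ) * 1 + 1 * 0 = 1
    norm_num
  have t01 : T 0 1 = 2 := by
    rw [hT, mul_apply']
    show (1 : ℝ) * 1 + 1 * 1 = 2
    norm_num
  have t10 : T 1 0 = 0 := by
    rw [hT, mul_apply']
    show (0 : ℝ) * 1 + 1 * 0 = 0
    norm_num
  have t11 : T 1 1 = 1 := by
    rw [hT, mul_apply']
    show (0 : ℝ) * 1 + 1 * 1 = 1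
    norm_num
  let f : S1 → ℝ := fun v => Real.arctan ((v : ℂ).re / (v : ℂ).im)
  have hfm : Measurable f := by
    apply Real.continuous_arctan.measurable.comp
    exact (Complex.measurable_re.comp measurable_subtype_coe).div
      (Complex.measurable_im.comp measurable_subtype_coe)
  have hfb : ∀ v, ‖f v‖ ≤ Real.pi / 2 := by
    intro v
    rw [Real.norm_eq_abs, abs_le]
    exact ⟨(Real.neg_pi_div_two_lt_arctan _).le, (Real.arctan_lt_pi_div_two _).le⟩
  have hratio : ∀ v : S1, (v : ℂ).im ≠ 0 →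
      ((circ T v : S1) : ℂ).re / ((circ T v : S1) : ℂ).im = (v : ℂ).re / (v : ℂ).im + 2 := by
    intro v hv
    have hn : ‖lin T (v : ℂ)‖ ≠ 0 := by simpa using lin_ne_zero (S1_ne_zero v)
    have h1 := circ_smul_eq T v
    have hre := congrArg Complex.re h1
    have him := congrArg Complex.im h1
    rw [Complex.re_ofReal_mul, lin_re, t00, t01] at hre
    rw [Complex.im_ofReal_mul, lin_im, t10, t11] at him
    have e1 : ((circ T v : S1) : ℂ).re = ((v : ℂ).re + 2 * (v : ℂ).im) / ‖lin T (v : ℂ)‖ := by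
      rw [eq_div_iff hn]; linarith
    have e2 : ((circ T v : S1) : ℂ).im = (v : ℂ).im / ‖lin T (v : ℂ)‖ := by
      rw [eq_div_iff hn]; linarith
    rw [e1, e2, div_div_div_cancel_right₀ hn]
    field_simp
  have hratio0 : ∀ v : S1, (v : ℂ).im = 0 →
      ((circ T v : S1) : ℂ).im = 0 := by
    intro v hv
    have hn : ‖lin T (v : ℂ)‖ ≠ 0 := by simpa using lin_ne_zero (S1_ne_zero v)
    have h1 := circ_smul_eq T v
    have him := congrArg Complex.im h1
    rw [Complex.im_ofReal_mul, lin_im, t10, t11, hv] at him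
    have : ‖lin T (v : ℂ)‖ * ((circ T v : S1) : ℂ).im = 0 := by linarith
    exact (mul_eq_zero.1 this).resolve_left hn
  have hint : Integrable f η := Integrable.of_bound hfm.aestronglyMeasurable _ (ae_of_all _ hfb)
  have hint2 : Integrable (fun v => f (circ T v)) η :=
    Integrable.of_bound (hfm.comp (measurable_circ T)).aestronglyMeasurable _
      (ae_of_all _ fun v => hfb _)
  have heq : ∫ v, f (circ T v) ∂η = ∫ v, f v ∂η := by
    conv_rhs => rw [← mem_stab.1 hU]
    rw [integral_map (measurable_circ T).aemeasurable hfm.aestronglyMeasurable]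
  have hpos : ∀ v, 0 ≤ f (circ T v) - f v := by
    intro v
    by_cases hv : (v : ℂ).im = 0
    · simp only [f, hv, hratio0 v hv]
      simp
    · simp only [f]
      rw [hratio v hv]
      have := Real.arctan_strictMono (show (v : ℂ).re / (v : ℂ).im < (v : ℂ).re / (v : ℂ).im + 2
        by linarith)
      linarith
  have hzero : ∫ v, (f (circ T v) - f v) ∂η = 0 := by
    rw [integral_sub hint2 hint, heq, sub_self]
  have hae := (integral_eq_zero_iff_of_nonneg (fun v => hpos v) (hint2.sub hint)).1 hzero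
  have him : ∀ᵐ v ∂η, ((v : S1) : ℂ).im = 0 := by
    filter_upwards [hae] with v hv
    by_contra hne
    have hv' : f (circ T v) - f v = 0 := hv
    simp only [f] at hv'
    rw [hratio v hne] at hv'
    have := Real.arctan_strictMono (show (v : ℂ).re / (v : ℂ).im < (v : ℂ).re / (v : ℂ).im + 2
      by linarith)
    linarith
  have him2 : ∀ᵐ v ∂η, ((circ g v : S1) : ℂ).im = 0 := by
    rw [← mem_stab.1 hg] at him
    exact ae_of_ae_map (measurable_circ g).aemeasurable him
  obtain ⟨v, hv1, hv2⟩ := (him.and him2).exists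
  have hn : ‖lin g (v : ℂ)‖ ≠ 0 := by simpa using lin_ne_zero (S1_ne_zero v)
  have h1 := congrArg Complex.im (circ_smul_eq g v)
  rw [Complex.im_ofReal_mul, lin_im, hv1, hv2, mul_zero, mul_zero, add_zero] at h1
  have hre : (v : ℂ).re = 0 := (mul_eq_zero.1 h1).resolve_left hc
  exact S1_ne_zero v (Complex.ext hre hv1)

variable {ι : Type} [Fintype ι]

theorem noinv_of (A : ι → SL(2, ℝ)) {ε : ℝ} (hd : Disc ε (grp A))
    (F : Set ℍ) (hF : MeasurableSet F) (hvol : volume F < ∞)
    (hcov : ∀ z : ℍ, ∃ g ∈ grp A, g • z ∈ F)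
    (hp : ∃ p ∈ grp A, p ≠ 1 ∧ p 0 0 + p 1 1 = 2) :
    NoInv A ∧ (∀ x y : ℂ, x ≠ 0 → y ≠ 0 → ∃ b ∈ grp A, wedge (lin b x) y ≠ 0) ∧
    ∃ h : SL(2, ℝ), U 1 ∈ grp (fun i => h * A i * h⁻¹) ∧
      ∃ g ∈ grp (fun i => h * A i * h⁻¹), g 1 0 ≠ 0 := by
  obtain ⟨p, hp, hp1, hpt⟩ := hp
  -- the conjugating matrix
  obtain ⟨h, p', hp', hconj⟩ : ∃ h : SL(2, ℝ), ∃ p' ∈ grp A, h * p' * h⁻¹ = U 1 := by
    obtain ⟨k, hk | hk⟩ := exists_conj_U p hp1 hpt
    · refine ⟨k⁻¹, p, hp, ?_⟩
      rw [mul_assoc, inv_inv, hk]; group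
    · refine ⟨k⁻¹, p⁻¹, (grp A).inv_mem hp, ?_⟩
      rw [mul_assoc, inv_inv, hk]; group
  have hmem : ∀ g ∈ grp A, h * g * h⁻¹ ∈ (grp A).map (cj h) := fun g hg => ⟨g, hg, rfl⟩
  have hU : U 1 ∈ (grp A).map (cj h) := by rw [← hconj]; exact hmem _ hp'
  obtain ⟨ε', hd'⟩ := disc_conj hd h
  -- a covering set of finite area for the conjugated group
  have hF' : MeasurableSet (h • F) := by
    have e : h • F = (fun z : ℍ => h⁻¹ • z) ⁻¹' F := by
      ext z
      rw [Set.mem_smul_set_iff_inv_smul_mem]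
      rfl
    rw [e]
    have hc : Continuous fun z : ℍ => h⁻¹ • z := continuous_const_smul h⁻¹
    exact hc.measurable hF
  have hcov' : ∀ z : ℍ, ∃ g ∈ (grp A).map (cj h), g • z ∈ h • F := by
    intro z
    obtain ⟨g, hg, hz⟩ := hcov (h⁻¹ • z)
    refine ⟨h * g * h⁻¹, hmem g hg, ?_⟩
    rw [mul_smul, mul_smul]
    exact Set.smul_mem_smul_set hz
  have hvol' : volume (h • F) < ∞ := by rw [volume_smul_sl]; exact hvol
  obtain ⟨g₀, hg₀, hc₀⟩ := exists_c_ne hd' hU (fun m hm => by
    refine (area_mult hd' (h • F) hF' hcov' (strip 0 1) (measurableSet_strip 0 1) m hm).trans_lt ?_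
    exact ENNReal.mul_lt_top (by simp) hvol')
  refine ⟨?_, ?_, h, by rw [grp_conj]; exact hU, g₀, by rw [grp_conj]; exact hg₀, hc₀⟩
  · -- no invariant probability measure
    intro η hη hinv
    have hle : Subgroup.closure (Set.range A) ≤ stab η := by
      rw [Subgroup.closure_le]
      rintro _ ⟨i, rfl⟩
      exact hinv i
    have : IsProbabilityMeasure (η.map (circ h)) :=
      Measure.isProbabilityMeasure_map (measurable_circ h).aemeasurable
    have hor : ∀ g ∈ grp A, g ∈ stab η ∨ -g ∈ stab η := by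
      intro g hg
      rcases grp_mem_or A hg with h1 | h1
      · exact Or.inl (hle h1)
      · exact Or.inr (hle h1)
    have hUU : U 1 * U 1 ∈ stab (η.map (circ h)) := by
      rw [← hconj]
      rcases hor p' hp' with h1 | h1
      · exact Subgroup.mul_mem _ (stab_map h1 h) (stab_map h1 h)
      · have h2 := Subgroup.mul_mem _ (stab_map h1 h) (stab_map h1 h)
        simpa using h2
    obtain ⟨g, hg, hgg⟩ := hg₀
    have hgg' : h * g * h⁻¹ = g₀ := hgg
    rcases hor g hg with h1 | h1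
    · exact no_inv_core _ hUU (stab_map h1 h) (by rw [hgg']; exact hc₀)
    · refine no_inv_core _ hUU (stab_map h1 h) ?_
      have : h * -g * h⁻¹ = -g₀ := by rw [← hgg']; simp
      rw [this]
      show -(g₀ 1 0) ≠ 0
      exact neg_ne_zero.2 hc₀
  · -- separation
    intro x y hx hy
    by_contra hno
    push Not at hno
    set x' := lin h x with hx'
    set y' := lin h y with hy'
    have hx0 : x' ≠ 0 := lin_ne_zero hx
    have hy0 : y' ≠ 0 := lin_ne_zero hy
    have hw : ∀ g ∈ (grp A).map (cj h), wedge (lin g x') y' = 0 := by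
      rintro _ ⟨g, hg, rfl⟩
      have h1 := hno g hg
      rw [← wedge_lin h] at h1
      rw [cj_apply, lin_mul, lin_mul, hx', lin_inv_lin]
      exact h1
    have w1 := hw 1 (Subgroup.one_mem _)
    rw [lin_one] at w1
    have w2 := hw _ hU
    have w3 := hw _ hg₀
    have u00 : (U 1) 0 0 = 1 := rfl
    have u01 : (U 1) 0 1 = 1 := rfl
    have u10 : (U 1) 1 0 = 0 := rfl
    have u11 : (U 1) 1 1 = 1 := rfl
    unfold wedge at w1 w2 w3
    rw [lin_re (U 1) x', lin_im (U 1) x', u00, u01, u10, u11] at w2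
    rw [lin_re g₀ x', lin_im g₀ x'] at w3
    have z1 : x'.im * y'.im = 0 := by linear_combination w2 - w1
    have z2 : x'.im = 0 ∧ y'.im = 0 := by
      rcases mul_eq_zero.1 z1 with hz | hz
      · refine ⟨hz, ?_⟩
        rw [hz, zero_mul, sub_zero] at w1
        have hre : x'.re ≠ 0 := fun h0 => hx0 (Complex.ext h0 hz)
        exact (mul_eq_zero.1 w1).resolve_left hre
      · refine ⟨?_, hz⟩
        rw [hz, mul_zero, zero_sub, neg_eq_zero] at w1
        have hre : y'.re ≠ 0 := fun h0 => hy0 (Complex.ext h0 hz)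
        exact (mul_eq_zero.1 w1).resolve_right hre
    obtain ⟨z2, z3⟩ := z2
    have hxre : x'.re ≠ 0 := fun h0 => hx0 (Complex.ext h0 z2)
    have hyre : y'.re ≠ 0 := fun h0 => hy0 (Complex.ext h0 z3)
    rw [z2, z3] at w3
    have w4 : g₀ 1 0 * (x'.re * y'.re) = 0 := by linear_combination -w3
    rcases mul_eq_zero.1 w4 with hz | hz
    · exact hc₀ hz
    · exact mul_ne_zero hxre hyre hz

end

end Pool.Agent.Helper97.Fuchs.H5
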